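import Pool.Agent.Helper40.GO.DefsD

/-!
# Project GO (MP_6af536_nt), packet GO-CVX: convexity and slopes from `Visc`
-/

set_option autoImplicit false

open Filter Topology

namespace Pool.Agent.Helper49.GO

open Pool.Agent.Helper40.GO

theorem sums_finite (k : ℕ) (M : Finset ℝ) : (Sums k M).Finite := by
  have h : Sums k M ⊆ (fun l : Fin (k + 1) → ℝ => ∑ i, l i) ''
      (Set.univ.pi fun _ : Fin (k + 1) => (M : Set ℝ)) := by
    rintro x ⟨l, hl, rfl⟩
    exact ⟨l, fun i _ => hl i, rfl⟩
  exact ((Set.Finite.pi' fun _ => M.finite_toSet).subset (by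
    intro l hl i
    exact hl i (Set.mem_univ i))).image _ |>.subset h

theorem flat (k : ℕ) (M : Finset ℝ) (g : ℝ → ℝ) (hV : Visc k M g) (v t₀ : ℝ) (ht : 0 < t₀)
    (ht1 : t₀ ≤ 1) (hg : ∀ r, 0 < r → r < t₀ → g r = v * r) : v ∈ Sums k M := by
  by_contra hv
  have hopen : IsOpen (Sums k M)ᶜ := (sums_finite k M).isClosed.isOpen_compl
  obtain ⟨δ, hδ, hball⟩ := Metric.isOpen_iff.1 hopen v hv
  have hε : 0 < δ / 4 := by positivity
  have e1 := hg (t₀ / 4) (by linarith) (by linarith)
  have e2 := hg (t₀ / 2) (by linarith) (by linarith)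
  have e3 := hg (3 * t₀ / 4) (by linarith) (by linarith)
  obtain ⟨_, r, hr1, hr2, hr3⟩ := hV (v - 2 * (δ / 4) * (t₀ / 2)) (δ / 4) (t₀ / 4) (t₀ / 2)
    (3 * t₀ / 4) (by linarith) (by linarith) (by linarith)
    (by rw [e1, e2]; nlinarith [mul_pos hε (mul_pos ht ht)])
    (by rw [e3, e2]; nlinarith [mul_pos hε (mul_pos ht ht)])
  have : v - 2 * (δ / 4) * (t₀ / 2) + 2 * (δ / 4) * r ∈ Metric.ball v δ := by
    rw [Metric.mem_ball, Real.dist_eq]
    have e : v - 2 * (δ / 4) * (t₀ / 2) + 2 * (δ / 4) * r - v = (δ / 2) * (r - t₀ / 2) := by ring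
    rw [e, abs_mul, abs_of_pos (by positivity : 0 < δ / 2)]
    have : |r - t₀ / 2| ≤ 1 := by
      rw [abs_le]
      constructor <;> linarith
    nlinarith [abs_nonneg (r - t₀ / 2)]
  exact hball this hr3

theorem chord (k : ℕ) (M : Finset ℝ) (g : ℝ → ℝ) (hV : Visc k M g) (s t u : ℝ) (hs : 0 < s)
    (hst : s < t) (htu : t < u) : (u - s) * g t ≤ (u - t) * g s + (t - s) * g u := by
  by_contra hcon
  push Not at hcon
  have hus : 0 < u - s := by linarith
  have h1 : 0 < u - t := by linarith
  have h2 : 0 < t - s := by linarith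
  set m : ℝ := (g u - g s) / (u - s) with hm
  have hmu : m * (u - s) = g u - g s := by
    rw [hm]
    field_simp
  have hD : 0 < g t - g s - m * (t - s) := by
    have : 0 < (u - s) * (g t - g s - m * (t - s)) := by
      have e : (u - s) * (g t - g s - m * (t - s)) =
          (u - s) * (g t - g s) - (m * (u - s)) * (t - s) := by ring
      rw [e, hmu]
      nlinarith
    exact (mul_pos_iff_of_pos_left hus).1 this
  set D : ℝ := g t - g s - m * (t - s) with hDdef
  set ε : ℝ := D / (2 * ((u - t) * (t - s))) with hε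
  have hε0 : 0 < ε := by positivity
  have hεD : ε * ((u - t) * (t - s)) = D / 2 := by
    rw [hε]
    field_simp
  obtain ⟨hc, _⟩ := hV (m + ε * (u + s)) (-ε) s t u hs hst htu
    (by nlinarith) (by nlinarith)
  linarith

theorem cvx : S_CVX := by
  intro k M g A hV hA
  refine ⟨?_, ?_⟩
  · intro hv t ht0 ht1
    have hA0 : 0 ≤ A := by
      have := (abs_nonneg _).trans (hA 1 one_pos)
      linarith
    set v := g 1 with hvdef
    set B : ℝ := A + |v| with hB
    have hB0 : 0 ≤ B := by positivity
    have hh : ∀ r, 0 < r → g r - v * r ≤ B * r := by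
      intro r hr
      have h1 := le_abs_self (g r)
      have h2 := hA r hr
      have h3 := neg_abs_le v
      nlinarith
    -- `h ≤ 0` on `(0, 1)`
    have hle : ∀ r, 0 < r → r < 1 → g r - v * r ≤ 0 := by
      intro r hr0 hr1
      by_contra hcon
      push Not at hcon
      set η : ℝ := g r - v * r with hη
      -- choose `s` with `B s < η (1 - s)`, `s < r`
      set s : ℝ := min (r / 2) (η * (1 - r) / (2 * (B + 1))) with hs
      have hs0 : 0 < s := by
        rw [hs]
        apply lt_min
        · linarith
        · have : 0 < 1 - r := by linarith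
          positivity
      have hsr : s < r := by
        have := min_le_left (r / 2) (η * (1 - r) / (2 * (B + 1)))
        rw [← hs] at this
        linarith
      have hsB : (B + 1) * s ≤ η * (1 - r) / 2 := by
        have h1 := min_le_right (r / 2) (η * (1 - r) / (2 * (B + 1)))
        rw [← hs] at h1
        have h2 : (B + 1) * s ≤ (B + 1) * (η * (1 - r) / (2 * (B + 1))) :=
          mul_le_mul_of_nonneg_left h1 (by linarith)
        have h3 : (B + 1) * (η * (1 - r) / (2 * (B + 1))) = η * (1 - r) / 2 := by
          field_simp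
        linarith
      have h1 := chord k M g hV s r 1 hs0 hsr hr1
      have h2 := hh s hs0
      -- (1 - s) (g r - v r) ≤ (1 - r) (g s - v s)
      have h3 : (1 - s) * η ≤ (1 - r) * (g s - v * s) := by
        rw [hη]
        have : g 1 = v := hvdef.symm
        nlinarith
      have h4 : (1 - r) * (g s - v * s) ≤ (1 - r) * (B * s) :=
        mul_le_mul_of_nonneg_left h2 (by linarith)
      have h5 : (1 - r) * η ≤ (1 - s) * η := by nlinarith
      have h6 : (1 - r) * (B * s) ≤ B * s := by
        have : 0 ≤ B * s := by positivity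
        nlinarith
      have h7 : 0 < η * (1 - r) := mul_pos hcon (by linarith)
      nlinarith
    by_contra hcon
    push Not at hcon
    have ht : g t - v * t = 0 := le_antisymm (hle t ht0 ht1) (by linarith)
    apply hv
    refine flat k M g hV v t ht0 ht1.le ?_
    intro r hr0 hrt
    have h1 := hle r hr0 (hrt.trans ht1)
    have h2 := chord k M g hV r t 1 hr0 hrt ht1
    have h3 : 0 ≤ (1 - t) * (g r - v * r) := by
      have e : g 1 = v := hvdef.symm
      have : (1 - r) * (g t - v * t) ≤ (1 - t) * (g r - v * r) := by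
        nlinarith
      rw [ht, mul_zero] at this
      exact this
    have h4 : 0 ≤ g r - v * r := by
      by_contra h
      push Not at h
      have : (1 - t) * (g r - v * r) < 0 := mul_neg_of_pos_of_neg (by linarith) h
      linarith
    linarith
  · intro v hg
    exact flat k M g hV v 1 one_pos le_rfl fun r hr _ => hg r hr

end Pool.Agent.Helper49.GO
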